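import Pool.Agent.Helper15.DAF.MainRow
import Pool.Agent.Helper15.DAF.Bridge
import Pool.Agent.Helper1.DAF.ORE
import Pool.Agent.Helper1.DAF.SPREAD
import Pool.Agent.Helper2.DAF.SMONO
import Pool.Agent.Helper2.DAF.DGLUE
import Pool.Agent.Helper4.DAF.IND2
import Pool.Agent.Helper25.DAF.IND1
import Pool.Agent.Helper25.DAF.LOCAL
import Pool.Agent.Helper25.DAF.RowABS
import Pool.Agent.Helper25.DAF.SMOOTH
import Pool.Agent.Helper38.DAF.SFG
import Pool.Agent.Helper44.DAF.VAN
import Pool.Agent.Helper44.DAF.CPT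
import Pool.Agent.Helper49.DAF.IND3
import Pool.Agent.Helper59.DAF.CLOSEDPT
import Pool.Agent.Helper59.DAF.SGLUE
import Pool.Agent.Helper61.DAF.DMONO
import Pool.Agent.Helper84.DAF.COORD
import Pool.Agent.Helper84.DAF.NAK

/-!
# MP_c8969c_ag: D-affine varieties and vector fields

If the first cohomology of every quasi-coherent `D_X`-module on a smooth variety `X` over `ℂ`
vanishes (for example if `X` is `D`-affine) and `Γ(X, D_X)` is a finitely generated left module
over its subalgebra generated by the global vector fields, then the tangent sheaf of `X` is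
generated by its global sections.
-/

open AlgebraicGeometry CategoryTheory
open Pool.Agent.Helper15.DAF

namespace Pool.Agent.Results.MP_c8969c_ag.FlagCriterion

theorem result (X : Scheme.{0}) [AlgebraicGeometry.IsIntegral X] [CompactSpace X]
    (s : X ⟶ Spec (CommRingCat.of ℂ)) [Smooth s] (hD : HalfDAffine s) (hfin : FiniteOverVF s) :
    TangentGenerated s := by
  intro V d hd
  have hDM : ST_DMONO := st_DMONO st_DERLOC st_SMONO st_SLOC st_SGLUE st_SBASIC
  have hDG : ST_DGLUE := Pool.Agent.Helper2.DAF.st_DGLUE st_ORE hDM st_SLOC st_SBASIC st_SFG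
  have hH : ST_H := st_H st_ORE hDM hDG st_VAN st_VANLOC st_SLOC st_SBASIC st_SFG
  have hLO : ST_LOCAL := st_LOCAL st_ABS st_COORD (st_IND3 st_IND1 st_IND2)
  have hMA : ST_MAIN := st_MAIN hH hLO st_VAN st_CPT st_SMOOTH st_NAK st_CLOSEDPT
    (st_SPREAD st_SLOC st_SMONO hDM st_SFG)
  exact gen_to_new V d (hMA X s (cech_of_half hD) (finite_of_new hfin) V d hd)

end Pool.Agent.Results.MP_c8969c_ag.FlagCriterion
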