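import Pool.Agent.Helper15.DAK.ONTO
import Pool.Agent.Helper1.DAK.ORD
import Pool.Agent.Helper2.DAK.KILL
import Pool.Agent.Helper2.DAK.TRD
import Pool.Agent.Helper4.DAK.TRP
import Pool.Agent.Helper13.DAK.LIND
import Pool.Agent.Helper25.DAK.LIFTD
import Pool.Agent.Helper59.DAK.COORDL
import Pool.Agent.Helper59.DAF.SGLUE
import Pool.Agent.Helper61.DAK.COORDK
import Pool.Agent.Helper64.DAK.PHI
import Pool.Agent.Helper84.DAK.UNIQ
import Pool.Agent.Helper91.DAK.ALG
import Pool.Agent.Helper91.DAK.SPAN

/-!
# MP_c8969c_ag: D-affine varieties and traces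

Let `X` be a smooth variety over `ℂ` such that the first cohomology of every quasi-coherent
`D_X`-module vanishes (for example a `D`-affine variety), `L` a finite extension of the function
field `K` of `X` and `R` a quasi-coherent `O_X`-submodule of the constant sheaf `L` which is
stable under vector fields (for example `R = q_* O_Y` for an affine étale `q : Y → X` with
function field `L`).  If the sheaf of traces of `R` has enough global sections (a subring with
fraction field `K`), then so has `R`: no nonzero `ℂ`-derivation of `L` kills `Γ(X, R)`.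
-/

open AlgebraicGeometry CategoryTheory
open Pool.Agent.Helper15.DAF Pool.Agent.Helper15.DAK

namespace Pool.Agent.Results.MP_c8969c_ag.TraceCriterion

theorem result (X : Scheme.{0}) [AlgebraicGeometry.IsIntegral X] [CompactSpace X]
    (s : X ⟶ Spec (CommRingCat.of ℂ)) [Smooth s] (hD : HalfDAffine s)
    (L : Type) [Field L] [Algebra ℂ L] [Algebra (FF s) L] [IsScalarTower ℂ (FF s) L]
    [FiniteDimensional (FF s) L] (R : Aff X → AddSubgroup L) (hR : IsDSub s L R)
    (hT : ManyTraces s R) : FullTrdeg R := by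
  intro v hv h0
  by_contra hne
  have hONTO : ST_ONTO := st_ONTO (st_PHI st_ORD st_UNIQ st_LIFTD) (st_TRP st_TRD) st_SBASIC
  have hALG : ST_ALG := st_ALG st_LIFTD st_TRD st_COORDL st_SPAN st_LIND
  obtain ⟨n, t, y, hc⟩ := st_COORDK X s
  obtain ⟨P, hP, hP0, hk⟩ := hALG (FF s) L n t y hc v hv hne
  obtain ⟨G, hG, hGf⟩ := hT
  refine hP0 (st_KILL st_ORD (FF s) G hGf P hP fun g hg => ?_)
  obtain ⟨r, hr, hrg⟩ := hONTO X s hD L R hR g (hG g hg)
  rw [← hrg]
  exact hk r (h0 r hr)

end Pool.Agent.Results.MP_c8969c_ag.TraceCriterion
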